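import Mathlib

set_option autoImplicit false

namespace Pool.Agent.Results.MP_ca0c05_nt.PredecessorPrimes

open Finset

/-- The nontrivial character mod 3 with real values, as a function on the naturals. -/
noncomputable def chi (m : ℕ) : ℝ := if m % 3 = 1 then 1 else if m % 3 = 2 then -1 else 0

lemma chi_mul (a b : ℕ) : chi (a * b) = chi a * chi b := by
  unfold chi
  have ha : a % 3 = 0 ∨ a % 3 = 1 ∨ a % 3 = 2 := by omega
  have hb : b % 3 = 0 ∨ b % 3 = 1 ∨ b % 3 = 2 := by omega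
  rcases ha with ha | ha | ha <;> rcases hb with hb | hb | hb <;>
    simp [Nat.mul_mod, ha, hb]

lemma chi_abs (a : ℕ) : |chi a| ≤ 1 := by
  unfold chi
  split_ifs <;> simp

/-- `m ↦ 1 / m`. -/
noncomputable def f1 : ℕ →* ℝ where
  toFun m := (m : ℝ)⁻¹
  map_one' := by simp
  map_mul' a b := by push_cast; rw [mul_inv]

/-- `m ↦ chi m / m`. -/
noncomputable def f2 : ℕ →* ℝ where
  toFun m := chi m * (m : ℝ)⁻¹
  map_one' := by simp [chi]
  map_mul' a b := by rw [chi_mul]; push_cast; rw [mul_inv]; ring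

lemma f1_lt {p : ℕ} (hp : p.Prime) : ‖f1 p‖ < 1 := by
  have h2 : (2 : ℝ) ≤ p := by exact_mod_cast hp.two_le
  have : f1 p = (p : ℝ)⁻¹ := rfl
  rw [this, Real.norm_eq_abs, abs_of_pos (by positivity)]
  exact inv_lt_one_of_one_lt₀ (by linarith)

lemma f2_lt {p : ℕ} (hp : p.Prime) : ‖f2 p‖ < 1 := by
  have h2 : (2 : ℝ) ≤ p := by exact_mod_cast hp.two_le
  have : f2 p = chi p * (p : ℝ)⁻¹ := rfl
  rw [this, Real.norm_eq_abs, abs_mul, abs_of_pos (show (0 : ℝ) < (p : ℝ)⁻¹ by positivity)]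
  calc |chi p| * (p : ℝ)⁻¹ ≤ 1 * (p : ℝ)⁻¹ :=
        mul_le_mul_of_nonneg_right (chi_abs p) (by positivity)
    _ < 1 := by rw [one_mul]; exact inv_lt_one_of_one_lt₀ (by linarith)

/-- Sum over smooth numbers that are 2 mod 3. -/
lemma sum_two_mod_three (S : Finset ℕ) (hS : ∀ q ∈ S, q.Prime) (M : Finset ℕ)
    (hM : ∀ m ∈ M, m ∈ Nat.factoredNumbers S ∧ m % 3 = 2) :
    ∑ m ∈ M, (m : ℝ)⁻¹ ≤
      (1 / 2) * (∏ q ∈ S, (1 - (q : ℝ)⁻¹)⁻¹ - ∏ q ∈ S, (1 + (q : ℝ)⁻¹)⁻¹) := by
  have hfil : S.filter Nat.Prime = S := Finset.filter_true_of_mem hS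
  have h1 := (EulerProduct.summable_and_hasSum_factoredNumbers_prod_filter_prime_geometric
    (f := f1) (fun {p} hp => f1_lt hp) S).2
  have h2 := (EulerProduct.summable_and_hasSum_factoredNumbers_prod_filter_prime_geometric
    (f := f2) (fun {p} hp => f2_lt hp) S).2
  rw [hfil] at h1 h2
  have h3 := h1.sub h2
  have h4 : HasSum ((Nat.factoredNumbers S).indicator (fun m => f1 m - f2 m))
      (∏ p ∈ S, (1 - f1 p)⁻¹ - ∏ p ∈ S, (1 - f2 p)⁻¹) := by
    rw [← hasSum_subtype_iff_indicator]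
    exact h3
  have hnn : ∀ m : ℕ, 0 ≤ (Nat.factoredNumbers S).indicator (fun m => f1 m - f2 m) m := by
    intro m
    apply Set.indicator_nonneg
    intro m _
    show 0 ≤ (m : ℝ)⁻¹ - chi m * (m : ℝ)⁻¹
    have := (abs_le.1 (chi_abs m)).2
    have h0 : (0 : ℝ) ≤ (m : ℝ)⁻¹ := by positivity
    nlinarith
  have h5 := sum_le_hasSum M (fun m _ => hnn m) h4
  have h6 : ∑ m ∈ M, (Nat.factoredNumbers S).indicator (fun m => f1 m - f2 m) m
      = ∑ m ∈ M, 2 * (m : ℝ)⁻¹ := by
    apply Finset.sum_congr rfl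
    intro m hm
    rw [Set.indicator_of_mem (hM m hm).1]
    show (m : ℝ)⁻¹ - chi m * (m : ℝ)⁻¹ = 2 * (m : ℝ)⁻¹
    have : chi m = -1 := by simp [chi, (hM m hm).2]
    rw [this]; ring
  have h7 : ∏ q ∈ S, (1 + (q : ℝ)⁻¹)⁻¹ ≤ ∏ p ∈ S, (1 - f2 p)⁻¹ := by
    apply Finset.prod_le_prod
    · intro q _
      positivity
    · intro q hq
      have := f2_lt (hS q hq)
      rw [Real.norm_eq_abs, abs_lt] at this
      have hpos : 0 < 1 - f2 q := by linarith [this.2]
      apply inv_anti₀ hpos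
      have e1 : f2 q = chi q * (q : ℝ)⁻¹ := rfl
      have e2 := (abs_le.1 (chi_abs q)).1
      have e3 : (0 : ℝ) ≤ (q : ℝ)⁻¹ := by positivity
      rw [e1]
      nlinarith
  rw [h6, ← Finset.mul_sum] at h5
  have h8 : ∏ p ∈ S, (1 - f1 p)⁻¹ = ∏ q ∈ S, (1 - (q : ℝ)⁻¹)⁻¹ := rfl
  rw [h8] at h5
  linarith

lemma w_anti {a b : ℕ} (ha : 2 ≤ a) (h : a ≤ b) :
    (1 - (b : ℝ)⁻¹)⁻¹ ≤ (1 - (a : ℝ)⁻¹)⁻¹ := by
  have h2 : (2 : ℝ) ≤ a := by exact_mod_cast ha
  have h3 : (a : ℝ) ≤ b := by exact_mod_cast h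
  have h4 : (b : ℝ)⁻¹ ≤ (a : ℝ)⁻¹ := inv_anti₀ (by linarith) h3
  have h5 : (a : ℝ)⁻¹ < 1 := inv_lt_one_of_one_lt₀ (by linarith)
  exact inv_anti₀ (by linarith) (by linarith)

lemma w_ge_one {a : ℕ} (ha : 2 ≤ a) : 1 ≤ (1 - (a : ℝ)⁻¹)⁻¹ := by
  have h2 : (2 : ℝ) ≤ a := by exact_mod_cast ha
  have h5 : (a : ℝ)⁻¹ < 1 := inv_lt_one_of_one_lt₀ (by linarith)
  have h6 : 0 < (a : ℝ)⁻¹ := by positivity
  rw [one_le_inv₀ (by linarith)]
  linarith

lemma v_mono {a b : ℕ} (ha : 2 ≤ a) (h : a ≤ b) :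
    (1 + (a : ℝ)⁻¹)⁻¹ ≤ (1 + (b : ℝ)⁻¹)⁻¹ := by
  have h2 : (2 : ℝ) ≤ a := by exact_mod_cast ha
  have h3 : (a : ℝ) ≤ b := by exact_mod_cast h
  have h4 : (b : ℝ)⁻¹ ≤ (a : ℝ)⁻¹ := inv_anti₀ (by linarith) h3
  have h5 : 0 ≤ (b : ℝ)⁻¹ := by positivity
  exact inv_anti₀ (by linarith) (by linarith)

lemma v_le_one (a : ℕ) : (1 + (a : ℝ)⁻¹)⁻¹ ≤ 1 := by
  have h5 : 0 ≤ (a : ℝ)⁻¹ := by positivity
  exact inv_le_one_of_one_le₀ (by linarith)

/-- Comparison of products over a set of primes with the products over an initial segment. -/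
lemma compare (B R : Finset ℕ) (c : ℕ) (hc2 : 2 ≤ c) (hBmem : ∀ b ∈ B, 2 ≤ b ∧ b ≤ c)
    (hC : ∀ q ∈ R, q ∉ B → c ≤ q) (hR2 : ∀ q ∈ R, 2 ≤ q) (hcd : R.card ≤ B.card) :
    ∏ q ∈ R, (1 - (q : ℝ)⁻¹)⁻¹ ≤ ∏ q ∈ B, (1 - (q : ℝ)⁻¹)⁻¹ ∧
      ∏ q ∈ B, (1 + (q : ℝ)⁻¹)⁻¹ ≤ ∏ q ∈ R, (1 + (q : ℝ)⁻¹)⁻¹ := by
  have hcard : (R \ B).card ≤ (B \ R).card := by
    have e1 : (R \ B).card + (R ∩ B).card = R.card := Finset.card_sdiff_add_card_inter R B
    have e2 : (B \ R).card + (B ∩ R).card = B.card := Finset.card_sdiff_add_card_inter B R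
    rw [Finset.inter_comm B R] at e2
    omega
  have split : ∀ g : ℕ → ℝ, (∏ q ∈ R, g q = (∏ q ∈ R \ B, g q) * ∏ q ∈ R ∩ B, g q) ∧
      (∏ q ∈ B, g q = (∏ q ∈ B \ R, g q) * ∏ q ∈ R ∩ B, g q) := by
    intro g
    constructor
    · rw [← Finset.prod_union (Finset.disjoint_sdiff_inter R B), Finset.sdiff_union_inter]
    · rw [Finset.inter_comm R B, ← Finset.prod_union (Finset.disjoint_sdiff_inter B R),
        Finset.sdiff_union_inter]
  constructor
  · set d : ℝ := (1 - (c : ℝ)⁻¹)⁻¹ with hd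
    have hc1 : 1 ≤ d := w_ge_one hc2
    have i1 : ∏ q ∈ R \ B, (1 - (q : ℝ)⁻¹)⁻¹ ≤ d ^ (R \ B).card := by
      rw [← Finset.prod_const]
      apply Finset.prod_le_prod
      · intro q hq
        have := w_ge_one (hR2 q (Finset.mem_sdiff.1 hq).1)
        linarith
      · intro q hq
        exact w_anti hc2 (hC q (Finset.mem_sdiff.1 hq).1 (Finset.mem_sdiff.1 hq).2)
    have i2 : d ^ (B \ R).card ≤ ∏ q ∈ B \ R, (1 - (q : ℝ)⁻¹)⁻¹ := by
      rw [← Finset.prod_const]
      apply Finset.prod_le_prod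
      · intro q _
        linarith
      · intro q hq
        have := hBmem q (Finset.mem_sdiff.1 hq).1
        exact w_anti this.1 this.2
    have i3 : d ^ (R \ B).card ≤ d ^ (B \ R).card := pow_le_pow_right₀ hc1 hcard
    have hnn : 0 ≤ ∏ q ∈ R ∩ B, (1 - (q : ℝ)⁻¹)⁻¹ := by
      apply Finset.prod_nonneg
      intro q hq
      have := w_ge_one (hR2 q (Finset.mem_inter.1 hq).1)
      linarith
    rw [(split _).1, (split _).2]
    exact mul_le_mul_of_nonneg_right (i1.trans (i3.trans i2)) hnn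
  · set d : ℝ := (1 + (c : ℝ)⁻¹)⁻¹ with hd
    have hd0 : 0 ≤ d := by positivity
    have hd1 : d ≤ 1 := v_le_one c
    have i1 : d ^ (R \ B).card ≤ ∏ q ∈ R \ B, (1 + (q : ℝ)⁻¹)⁻¹ := by
      rw [← Finset.prod_const]
      apply Finset.prod_le_prod
      · intro q _
        exact hd0
      · intro q hq
        exact v_mono hc2 (hC q (Finset.mem_sdiff.1 hq).1 (Finset.mem_sdiff.1 hq).2)
    have i2 : ∏ q ∈ B \ R, (1 + (q : ℝ)⁻¹)⁻¹ ≤ d ^ (B \ R).card := by
      rw [← Finset.prod_const]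
      apply Finset.prod_le_prod
      · intro q _
        positivity
      · intro q hq
        have := hBmem q (Finset.mem_sdiff.1 hq).1
        exact v_mono this.1 this.2
    have i3 : d ^ (B \ R).card ≤ d ^ (R \ B).card := pow_le_pow_of_le_one hd0 hd1 hcard
    have hnn : 0 ≤ ∏ q ∈ R ∩ B, (1 + (q : ℝ)⁻¹)⁻¹ := by
      apply Finset.prod_nonneg
      intro q _
      positivity
    rw [(split _).1, (split _).2]
    exact mul_le_mul_of_nonneg_right (i2.trans (i3.trans i1)) hnn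

/-- At most 18 primes, all at least 5. -/
lemma primes_five (R : Finset ℕ) (hR : ∀ q ∈ R, q.Prime ∧ 5 ≤ q) (hc : R.card ≤ 18) :
    ∏ q ∈ R, (1 - (q : ℝ)⁻¹)⁻¹ ≤ 2.6083 ∧ 0.4193 ≤ ∏ q ∈ R, (1 + (q : ℝ)⁻¹)⁻¹ := by
  set B : Finset ℕ := {5, 7, 11, 13, 17, 19, 23, 29, 31, 37, 41, 43, 47, 53, 59, 61, 67, 71} with hB
  have hBc : B.card = 18 := by rw [hB]; rfl
  have h := compare B R 71 (by norm_num) (by
    intro b hb
    rw [hB] at hb
    simp only [Finset.mem_insert, Finset.mem_singleton] at hb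
    omega) (by
    intro q hq hqB
    obtain ⟨hp, h5⟩ := hR q hq
    by_contra hlt
    push Not at hlt
    rw [hB] at hqB
    simp only [Finset.mem_insert, Finset.mem_singleton, not_or] at hqB
    interval_cases q <;> first | omega | (norm_num at hp)) (fun q hq => by
      have := (hR q hq).2; omega) (by omega)
  constructor
  · refine h.1.trans ?_
    rw [hB]
    norm_num [Finset.prod_insert, Finset.prod_singleton]
  · refine le_trans ?_ h.2
    rw [hB]
    norm_num [Finset.prod_insert, Finset.prod_singleton]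

/-- At most 18 primes, all at least 7. -/
lemma primes_seven (R : Finset ℕ) (hR : ∀ q ∈ R, q.Prime ∧ 7 ≤ q) (hc : R.card ≤ 18) :
    ∏ q ∈ R, (1 - (q : ℝ)⁻¹)⁻¹ ≤ 2.1157 ∧ 0.4964 ≤ ∏ q ∈ R, (1 + (q : ℝ)⁻¹)⁻¹ := by
  set B : Finset ℕ := {7, 11, 13, 17, 19, 23, 29, 31, 37, 41, 43, 47, 53, 59, 61, 67, 71, 73} with hB
  have hBc : B.card = 18 := by rw [hB]; rfl
  have h := compare B R 73 (by norm_num) (by
    intro b hb
    rw [hB] at hb
    simp only [Finset.mem_insert, Finset.mem_singleton] at hb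
    omega) (by
    intro q hq hqB
    obtain ⟨hp, h5⟩ := hR q hq
    by_contra hlt
    push Not at hlt
    rw [hB] at hqB
    simp only [Finset.mem_insert, Finset.mem_singleton, not_or] at hqB
    interval_cases q <;> first | omega | (norm_num at hp)) (fun q hq => by
      have := (hR q hq).2; omega) (by omega)
  constructor
  · refine h.1.trans ?_
    rw [hB]
    norm_num [Finset.prod_insert, Finset.prod_singleton]
  · refine le_trans ?_ h.2
    rw [hB]
    norm_num [Finset.prod_insert, Finset.prod_singleton]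

lemma exp_bound : Real.exp (49 / 50) < 8 / 3 := by
  have h := Real.exp_bound' (x := 49 / 50) (by norm_num) (by norm_num) (n := 8) (by norm_num)
  refine lt_of_le_of_lt h ?_
  norm_num [Finset.sum_range_succ, Nat.factorial]

/-- A product of numbers that are 1 mod 3 is 1 mod 3. -/
lemma prod_mod_three (T : Finset ℕ) (g : ℕ → ℕ) (h : ∀ p ∈ T, g p % 3 = 1) :
    (∏ p ∈ T, g p) % 3 = 1 := by
  induction T using Finset.induction_on with
  | empty => simp
  | insert a s ha ih =>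
    rw [Finset.prod_insert ha, Nat.mul_mod, h a (Finset.mem_insert_self a s),
      ih (fun p hp => h p (Finset.mem_insert_of_mem hp))]

/-- A product of numbers that are 2 mod 3 is not 0 mod 3. -/
lemma prod_mod_three' (T : Finset ℕ) (g : ℕ → ℕ) (h : ∀ p ∈ T, g p % 3 = 2) :
    (∏ p ∈ T, g p) % 3 ≠ 0 := by
  induction T using Finset.induction_on with
  | empty => simp
  | insert a s ha ih =>
    rw [Finset.prod_insert ha, Nat.mul_mod, h a (Finset.mem_insert_self a s)]
    have := ih (fun p hp => h p (Finset.mem_insert_of_mem hp))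
    omega

/-- If the unitary totient of `n` divides `n - 1`, `n` is not a prime power and 3 does not divide
`n - 1`, then `n - 1` has at least twenty distinct prime divisors. -/
theorem result (n : ℕ) (h2 : 2 ≤ n)
    (hdvd : (∏ p ∈ n.primeFactors, (p ^ n.factorization p - 1)) ∣ n - 1)
    (hnp : ¬ IsPrimePow n) (h3 : ¬ 3 ∣ n - 1) :
    20 ≤ (n - 1).primeFactors.card := by
  by_contra hlt
  push Not at hlt
  set T := n.primeFactors with hT
  set F : ℕ → ℕ := fun p => p ^ n.factorization p with hF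
  set D := ∏ p ∈ T, (F p - 1) with hD
  set S := (n - 1).primeFactors with hS
  have hn0 : n ≠ 0 := by omega
  have hn1 : n - 1 ≠ 0 := by omega
  have hprod : ∏ p ∈ T, F p = n := by
    have := Nat.prod_factorization_pow_eq_self hn0
    simpa [Finsupp.prod, hT, hF] using this
  have hTp : ∀ p ∈ T, p.Prime := fun p hp => Nat.prime_of_mem_primeFactors hp
  have hfac : ∀ p ∈ T, 1 ≤ n.factorization p := by
    intro p hp
    exact Nat.one_le_iff_ne_zero.2 (Finsupp.mem_support_iff.1 (by simpa [hT] using hp))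
  have hFp : ∀ p ∈ T, p ≤ F p := by
    intro p hp
    calc p = p ^ 1 := (pow_one p).symm
      _ ≤ p ^ n.factorization p := Nat.pow_le_pow_right (hTp p hp).pos (hfac p hp)
  have hF2 : ∀ p ∈ T, 2 ≤ F p := fun p hp => (hTp p hp).two_le.trans (hFp p hp)
  have hFd : ∀ p ∈ T, F p - 1 ∣ n - 1 := fun p hp =>
    (Finset.dvd_prod_of_mem (fun p => F p - 1) hp).trans hdvd
  have hpd : ∀ p ∈ T, p - 1 ∣ n - 1 := by
    intro p hp
    refine Dvd.dvd.trans ?_ (hFd p hp)
    have := Nat.sub_dvd_pow_sub_pow p 1 (n.factorization p)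
    simpa using this
  -- another prime
  have hother : ∀ p ∈ T, ∃ q ∈ T, q ≠ p := by
    intro p hp
    by_contra hcon
    push Not at hcon
    have hTs : T = {p} := by
      apply Finset.eq_singleton_iff_unique_mem.2
      exact ⟨hp, hcon⟩
    apply hnp
    rw [hTs, Finset.prod_singleton] at hprod
    rw [isPrimePow_nat_iff]
    exact ⟨p, n.factorization p, hTp p hp, hfac p hp, hprod⟩
  have hTne : T.Nonempty := Nat.nonempty_primeFactors.2 (by omega)
  -- n is odd
  have hodd : 2 ∉ T := by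
    intro h
    obtain ⟨q, hq, hq2⟩ := hother 2 h
    have hnd : 2 ∣ n := Nat.dvd_of_mem_primeFactors h
    have hqodd : q % 2 = 1 := by
      rcases (hTp q hq).eq_two_or_odd with h' | h'
      · exact absurd h' hq2
      · exact h'
    have := hpd q hq
    have h2q : 2 ∣ q - 1 := by omega
    have := h2q.trans this
    omega
  -- D ≤ n - 2
  have hDle : D < n - 1 := by
    obtain ⟨p, hp⟩ := hTne
    obtain ⟨q, hq, hqp⟩ := hother p hp
    have e1 : F p * ∏ r ∈ T.erase p, F r = n := by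
      rw [Finset.mul_prod_erase T F hp]; exact hprod
    have e2 : (F p - 1) * ∏ r ∈ T.erase p, (F r - 1) = D :=
      Finset.mul_prod_erase T (fun r => F r - 1) hp
    have e3 : ∏ r ∈ T.erase p, (F r - 1) ≤ ∏ r ∈ T.erase p, F r :=
      Finset.prod_le_prod' (fun r _ => Nat.sub_le _ _)
    have e4 : 2 ≤ ∏ r ∈ T.erase p, F r := by
      have hq' : q ∈ T.erase p := Finset.mem_erase.2 ⟨hqp, hq⟩
      have hd : F q ∣ ∏ r ∈ T.erase p, F r := Finset.dvd_prod_of_mem F hq'
      have hpos : 0 < ∏ r ∈ T.erase p, F r := by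
        apply Finset.prod_pos
        intro r hr
        have := hF2 r (Finset.mem_erase.1 hr).2
        omega
      exact (hF2 q hq).trans (Nat.le_of_dvd hpos hd)
    have e5 : D ≤ (F p - 1) * ∏ r ∈ T.erase p, F r := by
      rw [← e2]; exact Nat.mul_le_mul_left _ e3
    have e6 : (F p - 1) * ∏ r ∈ T.erase p, F r + ∏ r ∈ T.erase p, F r = n := by
      have hFp2 := hF2 p hp
      obtain ⟨k, hk⟩ := Nat.exists_eq_add_of_le hFp2
      have hk' : F p - 1 = k + 1 := by omega
      rw [hk', ← e1, hk]; ring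
    omega
  obtain ⟨K, hK⟩ := hdvd
  -- residues mod 3
  have hF3 : ∀ p ∈ T, p ≠ 3 → F p % 3 = 2 := by
    intro p hp hp3
    have hp' := hTp p hp
    have a1 : F p % 3 ≠ 0 := by
      intro h
      have : 3 ∣ p ^ n.factorization p := Nat.dvd_of_mod_eq_zero h
      have := Nat.prime_three.dvd_of_dvd_pow this
      exact hp3 ((Nat.prime_dvd_prime_iff_eq Nat.prime_three hp').1 this).symm
    have a2 : F p % 3 ≠ 1 := by
      intro h
      apply h3
      have h4 : 3 ∣ F p - 1 := by have := hF2 p hp; omega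
      exact h4.trans (hFd p hp)
    omega
  have hp3 : ∀ p ∈ T, p ≠ 3 → p % 3 = 2 := by
    intro p hp hp3
    have hp' := hTp p hp
    have a1 : p % 3 ≠ 0 := by
      intro h
      have : 3 ∣ p := Nat.dvd_of_mod_eq_zero h
      exact hp3 ((Nat.prime_dvd_prime_iff_eq Nat.prime_three hp').1 this).symm
    have a2 : p % 3 ≠ 1 := by
      intro h
      have h4 : 3 ∣ p - 1 := by have := hp'.two_le; omega
      exact h3 (h4.trans (hpd p hp))
    omega
  have hK4 : 4 ≤ K := by
    have hK1 : K ≠ 1 := by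
      rintro rfl
      omega
    have hKmod : K % 3 = 1 := by
      by_cases h3T : 3 ∈ T
      · have e2 : (F 3 - 1) * ∏ r ∈ T.erase 3, (F r - 1) = D :=
          Finset.mul_prod_erase T (fun r => F r - 1) h3T
        have e3 : (∏ r ∈ T.erase 3, (F r - 1)) % 3 = 1 := by
          apply prod_mod_three
          intro p hp
          have := hF3 p (Finset.mem_erase.1 hp).2 (Finset.mem_erase.1 hp).1
          omega
        have e4 : (F 3 - 1) % 3 = 2 := by
          have : 3 ∣ F 3 := dvd_pow_self 3 (by have := hfac 3 h3T; omega)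
          have := hF2 3 h3T
          omega
        have e5 : D % 3 = 2 := by rw [← e2, Nat.mul_mod, e3, e4]
        have e6 : 3 ∣ n := Nat.dvd_of_mem_primeFactors h3T
        have e7 : (n - 1) % 3 = 2 := by omega
        rw [hK, Nat.mul_mod, e5] at e7
        omega
      · have e5 : D % 3 = 1 := by
          apply prod_mod_three
          intro p hp
          have := hF3 p hp (fun h => h3T (h ▸ hp))
          omega
        have e6 : n % 3 ≠ 0 := by
          rw [← hprod]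
          apply prod_mod_three'
          intro p hp
          exact hF3 p hp (fun h => h3T (h ▸ hp))
        have e7 : (n - 1) % 3 = 1 := by omega
        rw [hK, Nat.mul_mod, e5] at e7
        omega
    have hK0 : K ≠ 0 := by
      rintro rfl
      omega
    omega
  -- real inequality
  have hDpos : 0 < D := Finset.prod_pos (fun p hp => by have := hF2 p hp; omega)
  have hbig : 4 * D < n := by
    have : 4 * D ≤ D * K := by rw [Nat.mul_comm]; exact Nat.mul_le_mul_left D hK4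
    omega
  set T' := T.erase 3 with hT'
  have hstep : ∀ p ∈ T, (F p : ℝ) ≤ ((F p - 1 : ℕ) : ℝ) * (1 + ((p : ℝ) - 1)⁻¹) := by
    intro p hp
    have b1 : (2 : ℝ) ≤ p := by exact_mod_cast (hTp p hp).two_le
    have b2 : (p : ℝ) ≤ F p := by exact_mod_cast hFp p hp
    have b3 : ((F p - 1 : ℕ) : ℝ) = (F p : ℝ) - 1 := by
      rw [Nat.cast_sub (by have := hF2 p hp; omega)]; simp
    rw [b3]
    have b4 : 0 < (p : ℝ) - 1 := by linarith
    have b5 : (1 : ℝ) ≤ ((F p : ℝ) - 1) * ((p : ℝ) - 1)⁻¹ := by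
      rw [← div_eq_mul_inv, le_div_iff₀ b4]; linarith
    nlinarith
  have hexp : ∀ p ∈ T, (F p : ℝ) ≤ ((F p - 1 : ℕ) : ℝ) * Real.exp (((p : ℝ) - 1)⁻¹) := by
    intro p hp
    refine (hstep p hp).trans ?_
    apply mul_le_mul_of_nonneg_left _ (by positivity)
    rw [add_comm]
    exact Real.add_one_le_exp _
  have hmain : (8 / 3 : ℝ) < Real.exp (∑ p ∈ T', ((p : ℝ) - 1)⁻¹) := by
    have c1 : ∏ p ∈ T', (F p : ℝ) ≤
        (∏ p ∈ T', ((F p - 1 : ℕ) : ℝ)) * Real.exp (∑ p ∈ T', ((p : ℝ) - 1)⁻¹) := by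
      rw [Real.exp_sum, ← Finset.prod_mul_distrib]
      apply Finset.prod_le_prod
      · intro p _; positivity
      · intro p hp; exact hexp p (Finset.mem_of_mem_erase hp)
    have c2 : (4 : ℝ) * ∏ p ∈ T, ((F p - 1 : ℕ) : ℝ) < ∏ p ∈ T, (F p : ℝ) := by
      have : ((4 * D : ℕ) : ℝ) < ((∏ p ∈ T, F p : ℕ) : ℝ) := by
        rw [hprod]; exact_mod_cast hbig
      rw [hD] at this
      push_cast at this
      exact this
    have hpos' : ∀ U : Finset ℕ, U ⊆ T → 0 < ∏ p ∈ U, ((F p - 1 : ℕ) : ℝ) := by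
      intro U hU
      apply Finset.prod_pos
      intro p hp
      have := hF2 p (hU hp)
      have h' : 0 < F p - 1 := by omega
      exact_mod_cast h'
    by_cases h3T : 3 ∈ T
    · have d1 : (F 3 : ℝ) * ∏ p ∈ T', (F p : ℝ) = ∏ p ∈ T, (F p : ℝ) :=
        Finset.mul_prod_erase T (fun p => (F p : ℝ)) h3T
      have d2 : ((F 3 - 1 : ℕ) : ℝ) * ∏ p ∈ T', ((F p - 1 : ℕ) : ℝ)
          = ∏ p ∈ T, ((F p - 1 : ℕ) : ℝ) :=
        Finset.mul_prod_erase T (fun p => ((F p - 1 : ℕ) : ℝ)) h3T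
      have d3 := hstep 3 h3T
      have d3' : (F 3 : ℝ) ≤ ((F 3 - 1 : ℕ) : ℝ) * (3 / 2) := by
        refine d3.trans (le_of_eq ?_)
        norm_num
      have hp1 := hpos' T' (Finset.erase_subset 3 T)
      have hp2 : 0 < ((F 3 - 1 : ℕ) : ℝ) := by
        have := hF2 3 h3T
        have h' : 0 < F 3 - 1 := by omega
        exact_mod_cast h'
      rw [← d1, ← d2] at c2
      have hexp0 := Real.exp_pos (∑ p ∈ T', ((p : ℝ) - 1)⁻¹)
      have d4 : (F 3 : ℝ) * ∏ p ∈ T', (F p : ℝ) ≤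
          (((F 3 - 1 : ℕ) : ℝ) * (3 / 2)) * ((∏ p ∈ T', ((F p - 1 : ℕ) : ℝ)) *
            Real.exp (∑ p ∈ T', ((p : ℝ) - 1)⁻¹)) :=
        mul_le_mul d3' c1 (Finset.prod_nonneg (fun p _ => by positivity)) (by positivity)
      have d5 := lt_of_lt_of_le c2 d4
      have d6 : 0 < ((F 3 - 1 : ℕ) : ℝ) * ∏ p ∈ T', ((F p - 1 : ℕ) : ℝ) := mul_pos hp2 hp1
      have d7 : (((F 3 - 1 : ℕ) : ℝ) * ∏ p ∈ T', ((F p - 1 : ℕ) : ℝ)) * 4 <
          (((F 3 - 1 : ℕ) : ℝ) * ∏ p ∈ T', ((F p - 1 : ℕ) : ℝ)) *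
            ((3 / 2) * Real.exp (∑ p ∈ T', ((p : ℝ) - 1)⁻¹)) := by
        nlinarith [d5]
      have d8 := lt_of_mul_lt_mul_left d7 d6.le
      linarith
    · have hTT : T' = T := Finset.erase_eq_of_notMem h3T
      rw [hTT] at c1 ⊢
      have hp1 := hpos' T (Finset.Subset.refl T)
      have d5 := lt_of_lt_of_le c2 c1
      have d7 : (∏ p ∈ T, ((F p - 1 : ℕ) : ℝ)) * 4 <
          (∏ p ∈ T, ((F p - 1 : ℕ) : ℝ)) * Real.exp (∑ p ∈ T, ((p : ℝ) - 1)⁻¹) := by
        linarith [d5]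
      have d8 := lt_of_mul_lt_mul_left d7 hp1.le
      linarith
  -- the sum
  have hSp : ∀ q ∈ S, q.Prime := fun q hq => Nat.prime_of_mem_primeFactors hq
  set M := T'.image (fun p => (p - 1) / 2) with hM
  have hTodd : ∀ p ∈ T, p % 2 = 1 := by
    intro p hp
    rcases (hTp p hp).eq_two_or_odd with h' | h'
    · exact absurd (h' ▸ hp) hodd
    · exact h'
  have hMmem : ∀ m ∈ M, m ∈ Nat.factoredNumbers S ∧ m % 3 = 2 := by
    intro m hm
    obtain ⟨p, hp, rfl⟩ := Finset.mem_image.1 hm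
    have hpT := Finset.mem_of_mem_erase hp
    have hne := (Finset.mem_erase.1 hp).1
    have e1 := hTodd p hpT
    have e2 := hp3 p hpT hne
    have e3 := (hTp p hpT).two_le
    refine ⟨?_, by omega⟩
    rw [Nat.mem_factoredNumbers]
    refine ⟨by omega, ?_⟩
    intro q hq
    have hqp := Nat.prime_of_mem_primeFactorsList hq
    have hqd := Nat.dvd_of_mem_primeFactorsList hq
    rw [hS, Nat.mem_primeFactors]
    refine ⟨hqp, ?_, hn1⟩
    have : (p - 1) / 2 ∣ p - 1 := Nat.div_dvd_of_dvd (by omega)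
    exact hqd.trans (this.trans (hpd p hpT))
  have hinj : Set.InjOn (fun p => (p - 1) / 2) (T' : Set ℕ) := by
    intro p hp q hq hpq
    have hpT := Finset.mem_of_mem_erase (Finset.mem_coe.1 hp)
    have hqT := Finset.mem_of_mem_erase (Finset.mem_coe.1 hq)
    have e1 := hTodd p hpT
    have e2 := hTodd q hqT
    simp only at hpq
    omega
  have hsum2 : ∑ m ∈ M, (m : ℝ)⁻¹ = 2 * ∑ p ∈ T', ((p : ℝ) - 1)⁻¹ := by
    rw [hM, Finset.sum_image hinj, Finset.mul_sum]
    apply Finset.sum_congr rfl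
    intro p hp
    have hpT := Finset.mem_of_mem_erase hp
    have e1 := hTodd p hpT
    have e3 := (hTp p hpT).two_le
    obtain ⟨k, hk⟩ : ∃ k, p = 2 * k + 1 := ⟨(p - 1) / 2, by omega⟩
    have hk2 : (p - 1) / 2 = k := by omega
    have hk0 : 0 < k := by omega
    have hk0' : (0 : ℝ) < k := by exact_mod_cast hk0
    rw [hk2]
    have : (p : ℝ) = 2 * k + 1 := by rw [hk]; push_cast; ring
    rw [this]
    field_simp
    ring
  -- the product over S
  have h2S : 2 ∈ S := by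
    rw [hS, Nat.mem_primeFactors]
    refine ⟨Nat.prime_two, ?_, hn1⟩
    have : n % 2 = 1 := by
      by_contra hne
      have : 2 ∣ n := by omega
      exact hodd (Nat.mem_primeFactors.2 ⟨Nat.prime_two, this, hn0⟩)
    omega
  have hS5 : ∀ q ∈ S.erase 2, q.Prime ∧ 5 ≤ q := by
    intro q hq
    obtain ⟨hq2, hqS⟩ := Finset.mem_erase.1 hq
    have hqp := hSp q hqS
    refine ⟨hqp, ?_⟩
    have hq3 : q ≠ 3 := by
      rintro rfl
      exact h3 (Nat.dvd_of_mem_primeFactors hqS)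
    have := hqp.two_le
    by_contra h5
    push Not at h5
    interval_cases q
    · exact hq2 rfl
    · exact hq3 rfl
    · norm_num at hqp
  have hcard : (S.erase 2).card ≤ 18 := by
    rw [Finset.card_erase_of_mem h2S]; omega
  have hprodS : ∏ q ∈ S, (1 - (q : ℝ)⁻¹)⁻¹ = 2 * ∏ q ∈ S.erase 2, (1 - (q : ℝ)⁻¹)⁻¹ := by
    rw [← Finset.mul_prod_erase S _ h2S]
    norm_num
  have hprodS' : ∏ q ∈ S, (1 + (q : ℝ)⁻¹)⁻¹ = (2 / 3) * ∏ q ∈ S.erase 2, (1 + (q : ℝ)⁻¹)⁻¹ := by
    rw [← Finset.mul_prod_erase S _ h2S]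
    norm_num
  have hpow : ∀ k : ℕ, 2 ^ k ∈ Nat.factoredNumbers S := by
    intro k
    rw [Nat.mem_factoredNumbers]
    refine ⟨by positivity, ?_⟩
    intro q hq
    have hqp := Nat.prime_of_mem_primeFactorsList hq
    have hqd := Nat.dvd_of_mem_primeFactorsList hq
    have := hqp.dvd_of_dvd_pow hqd
    rw [(Nat.prime_dvd_prime_iff_eq hqp Nat.prime_two).1 this]
    exact h2S
  have hfinal : ∑ p ∈ T', ((p : ℝ) - 1)⁻¹ ≤ 49 / 50 := by
    by_cases h5S : 5 ∈ S
    · have hb := primes_five (S.erase 2) hS5 hcard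
      have h5T : 5 ∉ T := by
        intro h
        have a1 : 5 ∣ n := Nat.dvd_of_mem_primeFactors h
        have a2 : 5 ∣ n - 1 := Nat.dvd_of_mem_primeFactors h5S
        omega
      have hn2 : 2 ∉ M := by
        intro h
        obtain ⟨p, hp, hpe⟩ := Finset.mem_image.1 h
        have hpT := Finset.mem_of_mem_erase hp
        have e1 := hTodd p hpT
        have : p = 5 := by omega
        exact h5T (this ▸ hpT)
      have hn32 : 32 ∉ M := by
        intro h
        obtain ⟨p, hp, hpe⟩ := Finset.mem_image.1 h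
        have hpT := Finset.mem_of_mem_erase hp
        have e1 := hTodd p hpT
        have : p = 65 := by omega
        have hpp := hTp p hpT
        rw [this] at hpp
        norm_num at hpp
      have hn32' : 32 ∉ insert 2 M := by
        rw [Finset.mem_insert, not_or]
        exact ⟨by norm_num, hn32⟩
      have hsum := sum_two_mod_three S hSp (insert 32 (insert 2 M)) (by
        intro m hm
        rw [Finset.mem_insert, Finset.mem_insert] at hm
        rcases hm with rfl | rfl | hm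
        · exact ⟨by simpa using hpow 5, by norm_num⟩
        · exact ⟨by simpa using hpow 1, by norm_num⟩
        · exact hMmem m hm)
      rw [Finset.sum_insert hn32', Finset.sum_insert hn2, hsum2, hprodS, hprodS'] at hsum
      have hb1 := hb.1
      have hb2 := hb.2
      norm_num at hsum hb1 hb2 ⊢
      linarith
    · have hS7 : ∀ q ∈ S.erase 2, q.Prime ∧ 7 ≤ q := by
        intro q hq
        obtain ⟨hqp, hq5⟩ := hS5 q hq
        refine ⟨hqp, ?_⟩
        have hqS := (Finset.mem_erase.1 hq).2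
        by_contra h7
        push Not at h7
        interval_cases q
        · exact h5S hqS
        · norm_num at hqp
      have hb := primes_seven (S.erase 2) hS7 hcard
      have hsum := sum_two_mod_three S hSp M hMmem
      rw [hsum2, hprodS, hprodS'] at hsum
      have hb1 := hb.1
      have hb2 := hb.2
      norm_num at hsum hb1 hb2 ⊢
      linarith
  have := Real.exp_le_exp.2 hfinal
  linarith [exp_bound]

end Pool.Agent.Results.MP_ca0c05_nt.PredecessorPrimes
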