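import Mathlib
import Pool.Agent.Results.MP_ca0c05_nt.PredecessorPrimes

set_option autoImplicit false

namespace Pool.Agent.Results.MP_ca0c05_nt.ThreePrimes

open Finset
open Pool.Agent.Results.MP_ca0c05_nt.PredecessorPrimes (f1 f1_lt w_ge_one compare)

/-- Sum over smooth numbers. -/
lemma sum_smooth (S : Finset ℕ) (hS : ∀ q ∈ S, q.Prime) (M : Finset ℕ)
    (hM : ∀ m ∈ M, m ∈ Nat.factoredNumbers S) :
    ∑ m ∈ M, (m : ℝ)⁻¹ ≤ ∏ q ∈ S, (1 - (q : ℝ)⁻¹)⁻¹ := by
  have hfil : S.filter Nat.Prime = S := Finset.filter_true_of_mem hS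
  have h1 := (EulerProduct.summable_and_hasSum_factoredNumbers_prod_filter_prime_geometric
    (f := f1) (fun {p} hp => f1_lt hp) S).2
  rw [hfil] at h1
  have h4 : HasSum ((Nat.factoredNumbers S).indicator (fun m => f1 m))
      (∏ p ∈ S, (1 - f1 p)⁻¹) := by
    rw [← hasSum_subtype_iff_indicator]
    exact h1
  have hnn : ∀ m : ℕ, 0 ≤ (Nat.factoredNumbers S).indicator (fun m => f1 m) m := by
    intro m
    apply Set.indicator_nonneg
    intro m _
    show 0 ≤ (m : ℝ)⁻¹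
    positivity
  have h5 := sum_le_hasSum M (fun m _ => hnn m) h4
  have h6 : ∑ m ∈ M, (Nat.factoredNumbers S).indicator (fun m => f1 m) m
      = ∑ m ∈ M, (m : ℝ)⁻¹ := by
    apply Finset.sum_congr rfl
    intro m hm
    rw [Set.indicator_of_mem (hM m hm)]
    rfl
  rw [h6] at h5
  exact h5

lemma exp_bound : Real.exp (4647 / 20000) * (455 / 288) < 2 := by
  have h := Real.exp_bound' (x := 4647 / 20000) (by norm_num) (by norm_num) (n := 6) (by norm_num)
  have h2 : Real.exp (4647 / 20000) < 2 / (455 / 288) := by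
    refine lt_of_le_of_lt h ?_
    norm_num [Finset.sum_range_succ, Nat.factorial]
  rwa [lt_div_iff₀ (by norm_num)] at h2

/-- If the unitary totient of `n` divides `n - 1` and `n` is not a prime power, then
`n - 1` has at least three distinct prime divisors. -/
theorem result (n : ℕ) (h2 : 2 ≤ n)
    (hdvd : (∏ p ∈ n.primeFactors, (p ^ n.factorization p - 1)) ∣ n - 1)
    (hnp : ¬ IsPrimePow n) :
    3 ≤ (n - 1).primeFactors.card := by
  by_cases h3 : 3 ∣ n - 1
  swap
  · have := PredecessorPrimes.result n h2 hdvd hnp h3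
    omega
  by_contra hlt
  push Not at hlt
  set T := n.primeFactors with hT
  set F : ℕ → ℕ := fun p => p ^ n.factorization p with hF
  set D := ∏ p ∈ T, (F p - 1) with hD
  set S := (n - 1).primeFactors with hS
  have hn0 : n ≠ 0 := by omega
  have hn1 : n - 1 ≠ 0 := by omega
  have hprod : ∏ p ∈ T, F p = n := by
    have := Nat.prod_factorization_pow_eq_self hn0
    simpa [Finsupp.prod, hT, hF] using this
  have hTp : ∀ p ∈ T, p.Prime := fun p hp => Nat.prime_of_mem_primeFactors hp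
  have hfac : ∀ p ∈ T, 1 ≤ n.factorization p := by
    intro p hp
    exact Nat.one_le_iff_ne_zero.2 (Finsupp.mem_support_iff.1 (by simpa [hT] using hp))
  have hFp : ∀ p ∈ T, p ≤ F p := by
    intro p hp
    calc p = p ^ 1 := (pow_one p).symm
      _ ≤ p ^ n.factorization p := Nat.pow_le_pow_right (hTp p hp).pos (hfac p hp)
  have hF2 : ∀ p ∈ T, 2 ≤ F p := fun p hp => (hTp p hp).two_le.trans (hFp p hp)
  have hFd : ∀ p ∈ T, F p - 1 ∣ n - 1 := fun p hp =>
    (Finset.dvd_prod_of_mem (fun p => F p - 1) hp).trans hdvd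
  have hpd : ∀ p ∈ T, p - 1 ∣ n - 1 := by
    intro p hp
    refine Dvd.dvd.trans ?_ (hFd p hp)
    have := Nat.sub_dvd_pow_sub_pow p 1 (n.factorization p)
    simpa using this
  -- another prime
  have hother : ∀ p ∈ T, ∃ q ∈ T, q ≠ p := by
    intro p hp
    by_contra hcon
    push Not at hcon
    have hTs : T = {p} := by
      apply Finset.eq_singleton_iff_unique_mem.2
      exact ⟨hp, hcon⟩
    apply hnp
    rw [hTs, Finset.prod_singleton] at hprod
    rw [isPrimePow_nat_iff]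
    exact ⟨p, n.factorization p, hTp p hp, hfac p hp, hprod⟩
  have hTne : T.Nonempty := Nat.nonempty_primeFactors.2 (by omega)
  -- n is odd
  have hodd : 2 ∉ T := by
    intro h
    obtain ⟨q, hq, hq2⟩ := hother 2 h
    have hnd : 2 ∣ n := Nat.dvd_of_mem_primeFactors h
    have hqodd : q % 2 = 1 := by
      rcases (hTp q hq).eq_two_or_odd with h' | h'
      · exact absurd h' hq2
      · exact h'
    have := hpd q hq
    have h2q : 2 ∣ q - 1 := by omega
    have := h2q.trans this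
    omega
  have hDle : D < n - 1 := by
    obtain ⟨p, hp⟩ := hTne
    obtain ⟨q, hq, hqp⟩ := hother p hp
    have e1 : F p * ∏ r ∈ T.erase p, F r = n := by
      rw [Finset.mul_prod_erase T F hp]; exact hprod
    have e2 : (F p - 1) * ∏ r ∈ T.erase p, (F r - 1) = D :=
      Finset.mul_prod_erase T (fun r => F r - 1) hp
    have e3 : ∏ r ∈ T.erase p, (F r - 1) ≤ ∏ r ∈ T.erase p, F r :=
      Finset.prod_le_prod' (fun r _ => Nat.sub_le _ _)
    have e4 : 2 ≤ ∏ r ∈ T.erase p, F r := by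
      have hq' : q ∈ T.erase p := Finset.mem_erase.2 ⟨hqp, hq⟩
      have hd : F q ∣ ∏ r ∈ T.erase p, F r := Finset.dvd_prod_of_mem F hq'
      have hpos : 0 < ∏ r ∈ T.erase p, F r := by
        apply Finset.prod_pos
        intro r hr
        have := hF2 r (Finset.mem_erase.1 hr).2
        omega
      exact (hF2 q hq).trans (Nat.le_of_dvd hpos hd)
    have e5 : D ≤ (F p - 1) * ∏ r ∈ T.erase p, F r := by
      rw [← e2]; exact Nat.mul_le_mul_left _ e3
    have e6 : (F p - 1) * ∏ r ∈ T.erase p, F r + ∏ r ∈ T.erase p, F r = n := by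
      have hFp2 := hF2 p hp
      obtain ⟨k, hk⟩ := Nat.exists_eq_add_of_le hFp2
      have hk' : F p - 1 = k + 1 := by omega
      rw [hk', ← e1, hk]; ring
    omega
  obtain ⟨K, hK⟩ := hdvd
  have hK2 : 2 ≤ K := by
    have hK1 : K ≠ 1 := by
      rintro rfl
      omega
    have hK0 : K ≠ 0 := by
      rintro rfl
      omega
    omega
  have hDpos : 0 < D := Finset.prod_pos (fun p hp => by have := hF2 p hp; omega)
  have hbig : 2 * D < n := by
    have : 2 * D ≤ D * K := by rw [Nat.mul_comm]; exact Nat.mul_le_mul_left D hK2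
    omega
  have hT3 : 3 ∉ T := by
    intro h
    have a1 : 3 ∣ n := Nat.dvd_of_mem_primeFactors h
    omega
  have hTodd : ∀ p ∈ T, p % 2 = 1 := by
    intro p hp
    rcases (hTp p hp).eq_two_or_odd with h' | h'
    · exact absurd (h' ▸ hp) hodd
    · exact h'
  -- the set S
  have h2S : 2 ∈ S := by
    rw [hS, Nat.mem_primeFactors]
    refine ⟨Nat.prime_two, ?_, hn1⟩
    have : n % 2 = 1 := by
      by_contra hne
      have : 2 ∣ n := by omega
      exact hodd (Nat.mem_primeFactors.2 ⟨Nat.prime_two, this, hn0⟩)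
    omega
  have h3S : 3 ∈ S := by
    rw [hS, Nat.mem_primeFactors]
    exact ⟨Nat.prime_three, h3, hn1⟩
  have hSe : S = {2, 3} := by
    symm
    apply Finset.eq_of_subset_of_card_le
    · intro x hx
      simp only [Finset.mem_insert, Finset.mem_singleton] at hx
      rcases hx with rfl | rfl
      · exact h2S
      · exact h3S
    · have : ({2, 3} : Finset ℕ).card = 2 := rfl
      omega
  set B : Finset ℕ := {5, 7, 13} with hB
  set T0 := T \ B with hT0
  set M := T0.image (fun p => (p - 1) / 2) with hM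
  have hMmem : ∀ m ∈ M, m ∈ Nat.factoredNumbers S := by
    intro m hm
    obtain ⟨p, hp, rfl⟩ := Finset.mem_image.1 hm
    have hpT := (Finset.mem_sdiff.1 hp).1
    have e1 := hTodd p hpT
    have e3 := (hTp p hpT).two_le
    rw [Nat.mem_factoredNumbers]
    refine ⟨by omega, ?_⟩
    intro q hq
    have hqp := Nat.prime_of_mem_primeFactorsList hq
    have hqd := Nat.dvd_of_mem_primeFactorsList hq
    rw [hS, Nat.mem_primeFactors]
    refine ⟨hqp, ?_, hn1⟩
    have : (p - 1) / 2 ∣ p - 1 := Nat.div_dvd_of_dvd (by omega)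
    exact hqd.trans (this.trans (hpd p hpT))
  have hinj : Set.InjOn (fun p => (p - 1) / 2) (T0 : Set ℕ) := by
    intro p hp q hq hpq
    have hpT := (Finset.mem_sdiff.1 (Finset.mem_coe.1 hp)).1
    have hqT := (Finset.mem_sdiff.1 (Finset.mem_coe.1 hq)).1
    have e1 := hTodd p hpT
    have e2 := hTodd q hqT
    simp only at hpq
    omega
  have hsum2 : ∑ m ∈ M, (m : ℝ)⁻¹ = 2 * ∑ p ∈ T0, ((p : ℝ) - 1)⁻¹ := by
    rw [hM, Finset.sum_image hinj, Finset.mul_sum]
    apply Finset.sum_congr rfl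
    intro p hp
    have hpT := (Finset.mem_sdiff.1 hp).1
    have e1 := hTodd p hpT
    have e3 := (hTp p hpT).two_le
    obtain ⟨k, hk⟩ : ∃ k, p = 2 * k + 1 := ⟨(p - 1) / 2, by omega⟩
    have hk2 : (p - 1) / 2 = k := by omega
    have hk0 : 0 < k := by omega
    have hk0' : (0 : ℝ) < k := by exact_mod_cast hk0
    rw [hk2]
    have : (p : ℝ) = 2 * k + 1 := by rw [hk]; push_cast; ring
    rw [this]
    field_simp
    ring
  set Ex : Finset ℕ := {1, 2, 3, 4, 6, 12, 16, 24, 27, 32, 64, 72} with hEx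
  have hExS : ∀ m ∈ Ex, m ∈ Nat.factoredNumbers S := by
    have h23 : ∀ a b : ℕ, 2 ^ a * 3 ^ b ∈ Nat.factoredNumbers S := by
      intro a b
      rw [Nat.mem_factoredNumbers]
      refine ⟨by positivity, ?_⟩
      intro q hq
      have hqp := Nat.prime_of_mem_primeFactorsList hq
      have hqd := Nat.dvd_of_mem_primeFactorsList hq
      rcases (hqp.dvd_mul).1 hqd with h | h
      · have := hqp.dvd_of_dvd_pow h
        rw [(Nat.prime_dvd_prime_iff_eq hqp Nat.prime_two).1 this]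
        exact h2S
      · have := hqp.dvd_of_dvd_pow h
        rw [(Nat.prime_dvd_prime_iff_eq hqp Nat.prime_three).1 this]
        exact h3S
    intro m hm
    rw [hEx] at hm
    simp only [Finset.mem_insert, Finset.mem_singleton] at hm
    rcases hm with rfl | rfl | rfl | rfl | rfl | rfl | rfl | rfl | rfl | rfl | rfl | rfl
    · simpa using h23 0 0
    · simpa using h23 1 0
    · simpa using h23 0 1
    · simpa using h23 2 0
    · simpa using h23 1 1
    · simpa using h23 2 1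
    · simpa using h23 4 0
    · simpa using h23 3 1
    · simpa using h23 0 3
    · simpa using h23 5 0
    · simpa using h23 6 0
    · simpa using h23 3 2
  have hdisj : Disjoint M Ex := by
    rw [Finset.disjoint_left]
    intro m hm hmE
    obtain ⟨p, hp, hpe⟩ := Finset.mem_image.1 hm
    obtain ⟨hpT, hpB⟩ := Finset.mem_sdiff.1 hp
    have e1 := hTodd p hpT
    have hpp := hTp p hpT
    have hp3 : p ≠ 3 := fun h => hT3 (h ▸ hpT)
    rw [hB] at hpB
    simp only [Finset.mem_insert, Finset.mem_singleton, not_or] at hpB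
    rw [hEx] at hmE
    simp only [Finset.mem_insert, Finset.mem_singleton] at hmE
    have hp2 := hpp.two_le
    have hcases : p = 3 ∨ p = 5 ∨ p = 7 ∨ p = 9 ∨ p = 13 ∨ p = 25 ∨ p = 33 ∨ p = 49 ∨ p = 55 ∨
        p = 65 ∨ p = 129 ∨ p = 145 := by omega
    rcases hcases with h | h | h | h | h | h | h | h | h | h | h | h <;>
      first | omega | (rw [h] at hpp; norm_num at hpp)
  have hsum := sum_smooth S (fun q hq => Nat.prime_of_mem_primeFactors hq) (M ∪ Ex) (by
    intro m hm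
    rcases Finset.mem_union.1 hm with h | h
    · exact hMmem m h
    · exact hExS m h)
  rw [Finset.sum_union hdisj, hsum2, hSe] at hsum
  have hs : ∑ p ∈ T0, ((p : ℝ) - 1)⁻¹ ≤ 4647 / 20000 := by
    rw [hEx] at hsum
    norm_num [Finset.sum_insert, Finset.sum_singleton, Finset.prod_insert,
      Finset.prod_singleton] at hsum
    linarith
  -- products
  have hw : ∀ p ∈ T, (F p : ℝ) ≤ ((F p - 1 : ℕ) : ℝ) * (1 - (p : ℝ)⁻¹)⁻¹ := by
    intro p hp
    have b1 : (2 : ℝ) ≤ p := by exact_mod_cast (hTp p hp).two_le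
    have b2 : (p : ℝ) ≤ F p := by exact_mod_cast hFp p hp
    have b3 : ((F p - 1 : ℕ) : ℝ) = (F p : ℝ) - 1 := by
      rw [Nat.cast_sub (by have := hF2 p hp; omega)]; simp
    have b4 : 0 < 1 - (p : ℝ)⁻¹ := by
      have : (p : ℝ)⁻¹ < 1 := inv_lt_one_of_one_lt₀ (by linarith)
      linarith
    have b0 : (p : ℝ) ≠ 0 := by positivity
    rw [b3, ← div_eq_mul_inv, le_div_iff₀ b4]
    have b5 : (1 : ℝ) ≤ (F p : ℝ) * (p : ℝ)⁻¹ := by
      rw [← div_eq_mul_inv, le_div_iff₀ (by positivity)]; linarith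
    nlinarith
  have hwexp : ∀ p ∈ T, (1 - (p : ℝ)⁻¹)⁻¹ ≤ Real.exp (((p : ℝ) - 1)⁻¹) := by
    intro p hp
    have b1 : (2 : ℝ) ≤ p := by exact_mod_cast (hTp p hp).two_le
    have : (1 - (p : ℝ)⁻¹)⁻¹ = ((p : ℝ) - 1)⁻¹ + 1 := by
      have b0 : (p : ℝ) ≠ 0 := by positivity
      have b4 : (p : ℝ) - 1 ≠ 0 := by linarith
      have b5 : 1 - (p : ℝ)⁻¹ ≠ 0 := by
        have : (p : ℝ)⁻¹ < 1 := inv_lt_one_of_one_lt₀ (by linarith)
        linarith
      field_simp
      ring
    rw [this]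
    exact Real.add_one_le_exp _
  have hwpos : ∀ p ∈ T, 0 ≤ (1 - (p : ℝ)⁻¹)⁻¹ := fun p hp =>
    zero_le_one.trans (w_ge_one (hTp p hp).two_le)
  have hP1 : ∏ p ∈ T ∩ B, (1 - (p : ℝ)⁻¹)⁻¹ ≤ 455 / 288 := by
    have hcmp := (compare B (T ∩ B) 13 (by norm_num) (by
      intro b hb
      rw [hB] at hb
      simp only [Finset.mem_insert, Finset.mem_singleton] at hb
      omega) (fun q hq hqB => absurd (Finset.mem_inter.1 hq).2 hqB)
      (fun q hq => (hTp q (Finset.mem_inter.1 hq).1).two_le)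
      (Finset.card_le_card Finset.inter_subset_right)).1
    refine hcmp.trans ?_
    rw [hB]
    norm_num [Finset.prod_insert, Finset.prod_singleton]
  have hP2 : ∏ p ∈ T0, (1 - (p : ℝ)⁻¹)⁻¹ ≤ Real.exp (4647 / 20000) := by
    calc ∏ p ∈ T0, (1 - (p : ℝ)⁻¹)⁻¹ ≤ ∏ p ∈ T0, Real.exp (((p : ℝ) - 1)⁻¹) :=
          Finset.prod_le_prod (fun p hp => hwpos p (Finset.mem_sdiff.1 hp).1)
            (fun p hp => hwexp p (Finset.mem_sdiff.1 hp).1)
      _ = Real.exp (∑ p ∈ T0, ((p : ℝ) - 1)⁻¹) := (Real.exp_sum _ _).symm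
      _ ≤ Real.exp (4647 / 20000) := Real.exp_le_exp.2 hs
  have hP : ∏ p ∈ T, (1 - (p : ℝ)⁻¹)⁻¹ ≤ Real.exp (4647 / 20000) * (455 / 288) := by
    have hsplit : ∏ p ∈ T, (1 - (p : ℝ)⁻¹)⁻¹
        = (∏ p ∈ T0, (1 - (p : ℝ)⁻¹)⁻¹) * ∏ p ∈ T ∩ B, (1 - (p : ℝ)⁻¹)⁻¹ := by
      rw [hT0, ← Finset.prod_union (Finset.disjoint_sdiff_inter T B), Finset.sdiff_union_inter]
    rw [hsplit]
    exact mul_le_mul hP2 hP1
      (Finset.prod_nonneg (fun p hp => hwpos p (Finset.mem_inter.1 hp).1)) (Real.exp_pos _).le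
  have hc : (2 : ℝ) * ∏ p ∈ T, ((F p - 1 : ℕ) : ℝ) < ∏ p ∈ T, (F p : ℝ) := by
    have : ((2 * D : ℕ) : ℝ) < ((∏ p ∈ T, F p : ℕ) : ℝ) := by
      rw [hprod]; exact_mod_cast hbig
    rw [hD] at this
    push_cast at this
    exact this
  have hc2 : ∏ p ∈ T, (F p : ℝ) ≤
      (∏ p ∈ T, ((F p - 1 : ℕ) : ℝ)) * ∏ p ∈ T, (1 - (p : ℝ)⁻¹)⁻¹ := by
    rw [← Finset.prod_mul_distrib]
    exact Finset.prod_le_prod (fun p _ => by positivity) hw
  have hDr : 0 < ∏ p ∈ T, ((F p - 1 : ℕ) : ℝ) := by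
    apply Finset.prod_pos
    intro p hp
    have := hF2 p hp
    have h' : 0 < F p - 1 := by omega
    exact_mod_cast h'
  have h9 : (∏ p ∈ T, ((F p - 1 : ℕ) : ℝ)) * 2 <
      (∏ p ∈ T, ((F p - 1 : ℕ) : ℝ)) * (Real.exp (4647 / 20000) * (455 / 288)) := by
    calc (∏ p ∈ T, ((F p - 1 : ℕ) : ℝ)) * 2 = 2 * ∏ p ∈ T, ((F p - 1 : ℕ) : ℝ) := mul_comm _ _
      _ < ∏ p ∈ T, (F p : ℝ) := hc
      _ ≤ (∏ p ∈ T, ((F p - 1 : ℕ) : ℝ)) * ∏ p ∈ T, (1 - (p : ℝ)⁻¹)⁻¹ := hc2
      _ ≤ _ := mul_le_mul_of_nonneg_left hP hDr.le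
  have h10 := lt_of_mul_lt_mul_left h9 hDr.le
  linarith [exp_bound]

end Pool.Agent.Results.MP_ca0c05_nt.ThreePrimes
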